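import Mathlib

/-!
# Integral domains with common division are not conditionally-equationally definable

Among the commutative rings with common division, the integral domains with common division are
not singled out by any set of conditional equations. Reason: let `R` be the local ring of the
pairs of power series over a field with the same constant term (two smooth branches glued at a
point). It is not a domain. A pair is a unit if and only if one (equivalently, each) of its
components is a unit, so that both projections to the ring of power series, extended by
`⊥ ↦ ⊥`, are homomorphisms for the common division; together they are injective. So every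
conditional equation which is valid in the enlargement of the domain of power series is valid in
the enlargement of `R`.
-/

set_option autoImplicit false

universe u v

namespace Pool.Agent.Results.MP_faa006_lc.NotDefinable

/-- Terms over the signature with constants `0`, `1`, `⊥`, unary `-` and binary `+`, `·`, `÷`,
with variables indexed by the natural numbers. -/
inductive Term : Type
  | var : ℕ → Term
  | zero : Term
  | one : Term
  | bot : Term
  | neg : Term → Term
  | add : Term → Term → Term
  | mul : Term → Term → Term
  | div : Term → Term → Term

/-- Structures for the signature with universe `A`. -/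
structure Str (A : Type u) where
  /-- the constant `0` -/
  zero : A
  /-- the constant `1` -/
  one : A
  /-- the constant `⊥` -/
  bot : A
  /-- the operation `-` -/
  neg : A → A
  /-- the operation `+` -/
  add : A → A → A
  /-- the operation `·` -/
  mul : A → A → A
  /-- the operation `÷` -/
  div : A → A → A

/-- The value of a term in a structure under an assignment of the variables. -/
def Term.eval {A : Type u} (S : Str A) (v : ℕ → A) : Term → A
  | .var n => v n
  | .zero => S.zero
  | .one => S.one
  | .bot => S.bot
  | .neg t => S.neg (t.eval S v)
  | .add s t => S.add (s.eval S v) (t.eval S v)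
  | .mul s t => S.mul (s.eval S v) (t.eval S v)
  | .div s t => S.div (s.eval S v) (t.eval S v)

/-- A conditional equation `e₁ ∧ … ∧ eₙ → e` (universally quantified), where `e₁, …, eₙ` (`n ≥ 0`)
and `e` are equations between terms; an equation is given by the pair of its two sides. -/
structure CondEq where
  /-- the premises `e₁, …, eₙ` -/
  premises : List (Term × Term)
  /-- the conclusion `e` -/
  conclusion : Term × Term

/-- The conditional equation `q` is valid in the structure `S`. -/
def CondEq.Valid {A : Type u} (q : CondEq) (S : Str A) : Prop :=
  ∀ v : ℕ → A, (∀ e ∈ q.premises, e.1.eval S v = e.2.eval S v) →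
    q.conclusion.1.eval S v = q.conclusion.2.eval S v

open Classical in
/-- The structure `Enl_⊥(R_÷)` of a commutative ring `R`: its universe is `R ∪ {⊥}`, that is
`Option R` with `⊥ = none`; the operations `+`, `-`, `·` are those of `R` on `R`, every operation
returns `⊥` as soon as one argument is `⊥`, and `x ÷ y = x · y⁻¹` if `y` is a unit of `R` and
`x ÷ y = ⊥` if `y` is not a unit (`Ring.inverse y` is the inverse of the unit `y`). -/
noncomputable def enl (R : Type u) [CommRing R] : Str (Option R) where
  zero := some 0
  one := some 1
  bot := none
  neg := fun x => match x with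
    | some x => some (-x)
    | none => none
  add := fun x y => match x, y with
    | some x, some y => some (x + y)
    | _, _ => none
  mul := fun x y => match x, y with
    | some x, some y => some (x * y)
    | _, _ => none
  div := fun x y => match x, y with
    | some x, some y => if IsUnit y then some (x * Ring.inverse y) else none
    | _, _ => none

/-- The bijection `e` is an isomorphism of the structures `S` and `S'`. -/
def IsIso {A : Type u} {B : Type v} (S : Str A) (S' : Str B) (e : A ≃ B) : Prop :=
  e S.zero = S'.zero ∧ e S.one = S'.one ∧ e S.bot = S'.bot ∧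
    (∀ x, e (S.neg x) = S'.neg (e x)) ∧
    (∀ x y, e (S.add x y) = S'.add (e x) (e y)) ∧
    (∀ x y, e (S.mul x y) = S'.mul (e x) (e y)) ∧
    (∀ x y, e (S.div x y) = S'.div (e x) (e y))

/-- `S` is a commutative ring with common division: it is isomorphic to `Enl_⊥(R_÷)` for some
commutative ring `R`. -/
def IsCR {A : Type u} (S : Str A) : Prop :=
  ∃ (R : Type u) (_ : CommRing R) (e : A ≃ Option R), IsIso S (enl R) e

/-- `S` is an integral domain with common division: it is isomorphic to `Enl_⊥(R_÷)` for some
integral domain `R`. -/
def IsCID {A : Type u} (S : Str A) : Prop :=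
  ∃ (R : Type u) (_ : CommRing R) (_ : IsDomain R) (e : A ≃ Option R), IsIso S (enl R) e

/-! ### The example -/

open PowerSeries

/-- pairs of power series with the same constant term -/
def glued (K : Type u) [Field K] : Subring (PowerSeries K × PowerSeries K) where
  carrier := {p | constantCoeff p.1 = constantCoeff p.2}
  mul_mem' := by
    intro a b ha hb
    simp only [Set.mem_ofPred_eq, Prod.fst_mul, Prod.snd_mul, map_mul] at *
    rw [ha, hb]
  one_mem' := by simp
  add_mem' := by
    intro a b ha hb
    simp only [Set.mem_ofPred_eq, Prod.fst_add, Prod.snd_add, map_add] at *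
    rw [ha, hb]
  zero_mem' := by simp
  neg_mem' := by
    intro a ha
    simp only [Set.mem_ofPred_eq, Prod.fst_neg, Prod.snd_neg, map_neg] at *
    rw [ha]

section
variable {K : Type u} [Field K]

/-- first projection -/
noncomputable def pr1 (K : Type u) [Field K] : glued K →+* PowerSeries K :=
  (RingHom.fst _ _).comp (glued K).subtype

/-- second projection -/
noncomputable def pr2 (K : Type u) [Field K] : glued K →+* PowerSeries K :=
  (RingHom.snd _ _).comp (glued K).subtype

theorem pr1_apply (x : glued K) : pr1 K x = x.1.1 := rfl
theorem pr2_apply (x : glued K) : pr2 K x = x.1.2 := rfl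

theorem glued_mem (x : glued K) : constantCoeff x.1.1 = constantCoeff x.1.2 := x.2

theorem isUnit_of (x : glued K) (h : constantCoeff x.1.1 ≠ 0) : IsUnit x := by
  have h2 : constantCoeff x.1.2 ≠ 0 := by rw [← glued_mem x]; exact h
  refine isUnit_iff_exists_inv.2 ⟨⟨(x.1.1⁻¹, x.1.2⁻¹), ?_⟩, ?_⟩
  · show constantCoeff (x.1.1⁻¹) = constantCoeff (x.1.2⁻¹)
    rw [PowerSeries.constantCoeff_inv, PowerSeries.constantCoeff_inv, glued_mem x]
  · apply Subtype.ext
    apply Prod.ext
    · show x.1.1 * x.1.1⁻¹ = 1
      exact PowerSeries.mul_inv_cancel _ h
    · show x.1.2 * x.1.2⁻¹ = 1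
      exact PowerSeries.mul_inv_cancel _ h2

theorem isUnit_pr1 (x : glued K) : IsUnit (pr1 K x) ↔ IsUnit x := by
  constructor
  · intro h
    refine isUnit_of x ?_
    have h3 : IsUnit (constantCoeff (pr1 K x)) := h.map _
    exact h3.ne_zero
  · intro h
    exact h.map _

theorem isUnit_pr2 (x : glued K) : IsUnit (pr2 K x) ↔ IsUnit x := by
  constructor
  · intro h
    refine isUnit_of x ?_
    rw [glued_mem x]
    have h3 : IsUnit (constantCoeff (pr2 K x)) := h.map _
    exact h3.ne_zero
  · intro h
    exact h.map _

end

theorem map_inverse {R : Type u} {S : Type v} [CommRing R] [CommRing S] (f : R →+* S) {y : R}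
    (hy : IsUnit y) : f (Ring.inverse y) = Ring.inverse (f y) := by
  obtain ⟨u, rfl⟩ := hy
  have e : f (u : R) = ((Units.map (f : R →* S) u : Sˣ) : S) := rfl
  rw [Ring.inverse_unit, e, Ring.inverse_unit, ← map_inv]
  rfl

/-- A ring homomorphism which reflects units extends to a homomorphism of the enlargements. -/
theorem eval_map {R : Type u} {S : Type v} [CommRing R] [CommRing S] (f : R →+* S)
    (hf : ∀ x, IsUnit (f x) ↔ IsUnit x) (v : ℕ → Option R) (t : Term) :
    (t.eval (enl R) v).map f = t.eval (enl S) (fun n => (v n).map f) := by
  induction t with
  | var n => rfl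
  | zero => simp [Term.eval, enl]
  | one => simp [Term.eval, enl]
  | bot => simp [Term.eval, enl]
  | neg t ih =>
    simp only [Term.eval]
    rw [← ih]
    cases t.eval (enl R) v <;> simp [enl]
  | add s t ihs iht =>
    simp only [Term.eval]
    rw [← ihs, ← iht]
    cases s.eval (enl R) v <;> cases t.eval (enl R) v <;> simp [enl]
  | mul s t ihs iht =>
    simp only [Term.eval]
    rw [← ihs, ← iht]
    cases s.eval (enl R) v <;> cases t.eval (enl R) v <;> simp [enl]
  | div s t ihs iht =>
    simp only [Term.eval]
    rw [← ihs, ← iht]
    rcases s.eval (enl R) v with _ | x <;> rcases t.eval (enl R) v with _ | y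
    · simp [enl]
    · simp [enl]
    · simp [enl]
    · by_cases hy : IsUnit y
      · have hy' : IsUnit (f y) := (hf y).2 hy
        simp [enl, hy, hy', map_inverse f hy]
      · have hy' : ¬ IsUnit (f y) := fun h => hy ((hf y).1 h)
        simp [enl, hy, hy']

theorem valid_glued {K : Type u} [Field K] (q : CondEq) (hq : q.Valid (enl (PowerSeries K))) :
    q.Valid (enl (glued K)) := by
  intro v hv
  have key : ∀ f : glued K →+* PowerSeries K, (∀ x, IsUnit (f x) ↔ IsUnit x) →
      (q.conclusion.1.eval (enl (glued K)) v).map f =
        (q.conclusion.2.eval (enl (glued K)) v).map f := by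
    intro f hf
    rw [eval_map f hf, eval_map f hf]
    apply hq
    intro e he
    rw [← eval_map f hf, ← eval_map f hf, hv e he]
  have k1 := key (pr1 K) isUnit_pr1
  have k2 := key (pr2 K) isUnit_pr2
  rcases h1 : q.conclusion.1.eval (enl (glued K)) v with _ | x <;>
    rcases h2 : q.conclusion.2.eval (enl (glued K)) v with _ | y
  · rfl
  · rw [h1, h2] at k1; simp at k1
  · rw [h1, h2] at k1; simp at k1
  · rw [h1, h2] at k1 k2
    simp only [Option.map_some, Option.some.injEq] at k1 k2
    congr 1
    apply Subtype.ext
    exact Prod.ext k1 k2

theorem not_isCID {K : Type u} [Field K] : ¬ IsCID (enl (glued K)) := by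
  rintro ⟨D, _, _, e, h0, _, hb, _, _, hm, _⟩
  have hx0 : constantCoeff (X : PowerSeries K) = 0 := by simp
  let x : glued K := ⟨(X, 0), by show constantCoeff (X : PowerSeries K) = constantCoeff 0; simp⟩
  let y : glued K := ⟨(0, X), by show constantCoeff (0 : PowerSeries K) = constantCoeff X; simp⟩
  have hx : x ≠ 0 := fun h => by
    have := congrArg (fun z : glued K => z.1.1) h
    exact X_ne_zero this
  have hy : y ≠ 0 := fun h => by
    have := congrArg (fun z : glued K => z.1.2) h
    exact X_ne_zero this
  have hxy : x * y = 0 := by
    apply Subtype.ext
    apply Prod.ext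
    · show X * 0 = (0 : PowerSeries K); simp
    · show 0 * X = (0 : PowerSeries K); simp
  have hne : ∀ z : glued K, z ≠ 0 → ∃ w : D, e (some z) = some w ∧ w ≠ 0 := by
    intro z hz
    rcases hw : e (some z) with _ | w
    · exfalso
      have : e (some z) = e none := by rw [hw]; exact hb.symm
      have := e.injective this
      simp at this
    · refine ⟨w, rfl, fun h => hz ?_⟩
      have : e (some z) = e (some 0) := by
        rw [hw, h]; exact h0.symm
      have := e.injective this
      simpa using this
  obtain ⟨x', hx', hx'0⟩ := hne x hx
  obtain ⟨y', hy', hy'0⟩ := hne y hy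
  have h1 := hm (some x) (some y)
  rw [hx', hy'] at h1
  have h2 : (enl (glued K)).mul (some x) (some y) = some (x * y) := rfl
  have h3 : (enl D).mul (some x') (some y') = some (x' * y') := rfl
  rw [h2, h3, hxy] at h1
  have h4 : e (some 0) = some (0 : D) := h0
  rw [h4] at h1
  have h5 : (0 : D) = x' * y' := by simpa using h1
  exact (mul_ne_zero hx'0 hy'0) h5.symm

/-- **The negated form of the question.** For every set `T` of conditional equations, each of them
valid in all integral domains with common division, there is a commutative ring with common
division `M` which satisfies `T` and is not an integral domain with common division. -/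
theorem result (T : Set CondEq)
    (hT : ∀ q ∈ T, ∀ (B : Type u) (N : Str B), IsCID N → q.Valid N) :
    ∃ (A : Type u) (M : Str A), IsCR M ∧ (∀ q ∈ T, q.Valid M) ∧ ¬ IsCID M := by
  let K : Type u := ULift.{u} ℚ
  have refl : ∀ (R : Type u) [CommRing R], IsIso (enl R) (enl R) (Equiv.refl _) := by
    intro R _
    exact ⟨rfl, rfl, rfl, fun _ => rfl, fun _ _ => rfl, fun _ _ => rfl, fun _ _ => rfl⟩
  refine ⟨Option (glued K), enl (glued K), ⟨glued K, inferInstance, Equiv.refl _, refl _⟩,
    fun q hq => valid_glued q ?_, not_isCID⟩
  exact hT q hq _ _ ⟨PowerSeries K, inferInstance, inferInstance, Equiv.refl _, refl _⟩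

end Pool.Agent.Results.MP_faa006_lc.NotDefinable
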